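import Pool.Agent.N162.GP.Stm3
import Pool.Agent.N145.PC.Gen
import Pool.Agent.N271.GP.GPR

/-!
# Project GP (helper162): KGP, independent embeddings of a field
-/

set_option autoImplicit false

namespace Pool.Agent.N403.GP

open MvPolynomial

/-- an embedding with prescribed values on a transcendence basis -/
theorem emb {L Ω J : Type} [Field L] [Field Ω] [IsAlgClosed Ω] [Algebra ℂ L] [Algebra ℂ Ω]
    (x : J → L) (hx : IsTranscendenceBasis ℂ x) (T : J → Ω) (hT : AlgebraicIndependent ℂ T) :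
    ∃ σ : L →ₐ[ℂ] Ω, ∀ a : Ω, IsAlgebraic σ.fieldRange a →
      IsAlgebraic (Algebra.adjoin ℂ (Set.range T)) a := by
  let iR1 : Algebra (MvPolynomial J ℂ) L := (aeval x : MvPolynomial J ℂ →ₐ[ℂ] L).toRingHom.toAlgebra
  let iR2 : Algebra (MvPolynomial J ℂ) Ω :=
    (aeval T : MvPolynomial J ℂ →ₐ[ℂ] Ω).toRingHom.toAlgebra
  have hR1 : ∀ p : MvPolynomial J ℂ, algebraMap (MvPolynomial J ℂ) L p = aeval x p := fun _ => rfl
  have hR2 : ∀ p : MvPolynomial J ℂ, algebraMap (MvPolynomial J ℂ) Ω p = aeval T p := fun _ => rfl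
  have htf1 : Module.IsTorsionFree (MvPolynomial J ℂ) L :=
    Module.isTorsionFree_iff_algebraMap_injective.2 hx.1
  have htf2 : Module.IsTorsionFree (MvPolynomial J ℂ) Ω :=
    Module.isTorsionFree_iff_algebraMap_injective.2 hT
  have halg := Pool.Agent.N145.PC.alg_mv x hx hR1
  let θ : L →ₐ[MvPolynomial J ℂ] Ω := IsAlgClosed.lift
  have hθC : ∀ c : ℂ, θ (algebraMap ℂ L c) = algebraMap ℂ Ω c := by
    intro c
    have h1 := θ.commutes (C c)
    rw [hR1, hR2, aeval_C, aeval_C] at h1
    exact h1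
  let σ : L →ₐ[ℂ] Ω := { (θ : L →+* Ω) with commutes' := hθC }
  refine ⟨σ, fun a ha => ?_⟩
  obtain ⟨p, hp0, hp⟩ := Pool.Agent.N271.GP.alg_range σ ha
  let iL : Algebra L Ω := (σ : L →+* Ω).toAlgebra
  have hst : IsScalarTower (MvPolynomial J ℂ) L Ω :=
    IsScalarTower.of_algebraMap_eq fun q => (θ.commutes q).symm
  have h1 : IsAlgebraic L a := ⟨p, hp0, hp⟩
  have h2 : IsAlgebraic (MvPolynomial J ℂ) a := h1.restrictScalars (MvPolynomial J ℂ)
  let f : MvPolynomial J ℂ →+* Algebra.adjoin ℂ (Set.range T) :=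
    ((aeval T : MvPolynomial J ℂ →ₐ[ℂ] Ω) : MvPolynomial J ℂ →+* Ω).codRestrict
      (Algebra.adjoin ℂ (Set.range T)).toSubring fun p => by
        change aeval T p ∈ Algebra.adjoin ℂ (Set.range T)
        rw [Algebra.adjoin_range_eq_range_aeval]
        exact ⟨p, rfl⟩
  have hf : Function.Injective f := by
    intro p q h
    exact hT (congrArg Subtype.val h)
  exact h2.ringHom_of_comp_eq f (RingHom.id Ω) hf rfl

/-- **GP/KGP** -/
theorem kgp_ : Pool.Agent.N162.GP.StKGP := by
  intro w k L _ _ _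
  obtain ⟨J, x, hx⟩ := exists_isTranscendenceBasis' ℂ L
  let Ω := AlgebraicClosure (FractionRing (MvPolynomial (Fin k × J) ℂ))
  let T : Fin k × J → Ω := fun p => algebraMap (MvPolynomial (Fin k × J) ℂ) Ω (X p)
  have hT : AlgebraicIndependent ℂ T := by
    have h1 : AlgebraicIndependent ℂ (X : Fin k × J → MvPolynomial (Fin k × J) ℂ) :=
      algebraicIndependent_X (Fin k × J) ℂ
    refine h1.map' (f := IsScalarTower.toAlgHom ℂ (MvPolynomial (Fin k × J) ℂ) Ω) ?_
    change Function.Injective (algebraMap (MvPolynomial (Fin k × J) ℂ) Ω)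
    rw [IsScalarTower.algebraMap_eq (MvPolynomial (Fin k × J) ℂ)
      (FractionRing (MvPolynomial (Fin k × J) ℂ)) Ω]
    exact (algebraMap (FractionRing (MvPolynomial (Fin k × J) ℂ)) Ω).injective.comp
      (IsFractionRing.injective (MvPolynomial (Fin k × J) ℂ)
        (FractionRing (MvPolynomial (Fin k × J) ℂ)))
  have hTi : ∀ i, AlgebraicIndependent ℂ fun l : J => T (i, l) := fun i =>
    hT.comp (fun l => (i, l)) fun a b h => (Prod.mk.inj h).2
  choose σ hσ using fun i => emb x hx (fun l : J => T (i, l)) (hTi i)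
  refine ⟨Ω, inferInstance, inferInstance, inferInstance, σ, ?_⟩
  intro i j hij a hai haj
  have h1 := hσ i a hai
  have h2 := hσ j a haj
  have hr : ∀ i, Set.range (fun l : J => T (i, l)) = T '' {p | p.1 = i} := by
    intro i
    ext z
    constructor
    · rintro ⟨l, rfl⟩
      exact ⟨(i, l), rfl, rfl⟩
    · rintro ⟨⟨i', l⟩, h, rfl⟩
      exact ⟨l, by rw [show i' = i from h]⟩
  rw [hr] at h1 h2
  by_contra hcon
  have htr : Transcendental ℂ a := by
    intro h3
    apply hcon
    have h4 : IsIntegral ℂ a := h3.isIntegral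
    have h5 := IsAlgClosed.degree_eq_one_of_irreducible ℂ (minpoly.irreducible h4)
    obtain ⟨z, hz⟩ := minpoly.mem_range_of_degree_eq_one ℂ a h5
    exact ⟨z, hz.symm⟩
  have hdis : Disjoint {p : Fin k × J | p.1 = i} {p | p.1 = j} :=
    Set.disjoint_left.2 fun p hp hq => hij (hp.symm.trans hq)
  have h3 := (hT.adjoin_of_disjoint hdis).subalgebraAlgebraicClosure
  let E := Subalgebra.algebraicClosure (Algebra.adjoin ℂ (T '' {p | p.1 = i})) Ω
  have ha : a ∈ E := h1
  have h4 : AlgebraicIndependent ℂ (fun _ : Unit => (⟨a, ha⟩ : E)) := by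
    refine (algebraicIndependent_unique_type_iff).2 ?_
    intro h5
    exact htr (h5.algHom (IsScalarTower.toAlgHom ℂ E Ω))
  have h5 := AlgebraicIndependent.sumElim_comp h4 h3
  have h6 : AlgebraicIndependent ℂ (Sum.elim (fun _ : Unit => a)
      fun p : {p : Fin k × J | p.1 = j} => T p) := by
    have h7 := h5.comp Sum.swap Sum.swap_leftInverse.injective
    convert h7 using 1
    funext s
    rcases s with s | s <;> rfl
  have h7 := (AlgebraicIndependent.sumElim_iff.1 h6).2
  have h8 : Transcendental (Algebra.adjoin ℂ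
      (Set.range fun p : {p : Fin k × J | p.1 = j} => T p)) a :=
    (algebraicIndependent_unique_type_iff).1 h7
  have h9 : Set.range (fun p : {p : Fin k × J | p.1 = j} => T p) = T '' {p | p.1 = j} := by
    rw [Set.image_eq_range]
  rw [h9] at h8
  exact h8 h2

end Pool.Agent.N403.GP
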